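import Mathlib
import Pool.Agent.Lib.MP_3b52ff_co.Hider

namespace Pool.Agent.Results.MP_3b52ff_co.MinDegInfElusive

/-- An element of `[ℕ]^2`: an unordered pair of distinct natural numbers. -/
abbrev Pair : Type := {e : Sym2 ℕ // ¬ e.IsDiag}

/-- A position of the game: the list of the turns played so far, oldest first; each turn is the
pair chosen by Seeker with the colour given by Hider (`true` is green, `false` is red). -/
abbrev Position : Type := List (Pair × Bool)

/-- The position after `n` turns when Seeker follows the strategy `σ` (a map from positions to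
pairs) and the colours given by Hider are `c 0, c 1, …`. -/
def position (σ : Position → Pair) (c : ℕ → Bool) : ℕ → Position
  | 0 => []
  | n + 1 => position σ c n ++ [(σ (position σ c n), c n)]

/-- The pair chosen by Seeker at turn `n`. -/
def asked (σ : Position → Pair) (c : ℕ → Bool) (n : ℕ) : Pair := σ (position σ c n)

/-- `G_∞`: the pairs that are green at the end of the run. -/
def green (σ : Position → Pair) (c : ℕ → Bool) : Set Pair :=
  {e | ∃ n, asked σ c n = e ∧ c n = true}

/-- `W_∞`: the pairs that are still white at the end of the run. -/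
def white (σ : Position → Pair) (c : ℕ → Bool) : Set Pair :=
  {e | ∀ n, asked σ c n ≠ e}

/-- `𝒫_∞`: the graphs `H` with `G_∞ ⊆ H ⊆ G_∞ ∪ W_∞`. -/
def possible (σ : Position → Pair) (c : ℕ → Bool) : Set (Set Pair) :=
  {H | green σ c ⊆ H ∧ H ⊆ green σ c ∪ white σ c}

/-- Seeker wins the run: `W_∞ ≠ ∅`, and `𝒫_∞ ⊆ S` or `𝒫_∞ ∩ S = ∅`. -/
def SeekerWins (S : Set (Set Pair)) (σ : Position → Pair) (c : ℕ → Bool) : Prop :=
  (white σ c).Nonempty ∧ (possible σ c ⊆ S ∨ possible σ c ∩ S = ∅)

/-- `σ` is a winning strategy of Seeker in `G(S)`: whatever colours Hider gives, Seeker always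
chooses a pair that is still white (no pair is chosen twice) and wins the run. -/
def IsWinningStrategy (S : Set (Set Pair)) (σ : Position → Pair) : Prop :=
  ∀ c : ℕ → Bool, Function.Injective (asked σ c) ∧ SeekerWins S σ c

/-- `S` is `∞`-elusive: Seeker has no winning strategy in `G(S)`. -/
def InfElusive (S : Set (Set Pair)) : Prop := ¬ ∃ σ : Position → Pair, IsWinningStrategy S σ

/-- The degree of `v` in the graph `G`: the number, possibly infinite, of neighbours of `v`. -/
noncomputable def degree (G : Set Pair) (v : ℕ) : ℕ∞ :=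
  Set.encard {w : ℕ | ∃ e ∈ G, e.1 = s(v, w)}

/-- `𝒟_k`: the graphs on `ℕ` in which every vertex has degree at least `k`. -/
def MinDeg (k : ℕ) : Set (Set Pair) := {G | ∀ v : ℕ, (k : ℕ∞) ≤ degree G v}

open Pool.Agent.Lib.MP_3b52ff_co in
/-- For every `k ≥ 2`, the property `𝒟_k` is `∞`-elusive. -/
theorem result : ∀ k : ℕ, 2 ≤ k → InfElusive (MinDeg k) := by
  classical
  rintro k hk ⟨σ, hσ⟩
  obtain ⟨-, ⟨e, he⟩, hwin⟩ := hσ (col k σ)
  have hpos : ∀ n, position σ (col k σ) n = (run k σ n).h := by
    intro n
    induction n with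
    | zero => rfl
    | succ n ih => rw [position, ih, run_succ_h]; rfl
  have hask : ∀ n, asked σ (col k σ) n = ask k σ n := by
    intro n
    rw [asked, hpos]; rfl
  rcases hwin with hwin | hwin
  · -- the green graph would have minimum degree at least `k`
    have hG : green σ (col k σ) ∈ MinDeg k := hwin ⟨subset_rfl, Set.subset_union_left⟩
    obtain ⟨a, b, hab, hw⟩ : ∃ a b : ℕ, a < b ∧ e.1 = s(a, b) := by
      obtain ⟨e, hd⟩ := e
      induction e using Sym2.ind with
      | _ a b =>
        have hne : a ≠ b := fun h => hd (by simp [h])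
        rcases lt_or_gt_of_ne hne with h | h
        · exact ⟨a, b, h, rfl⟩
        · exact ⟨b, a, h, Sym2.eq_swap⟩
    obtain ⟨T, hT, hTc⟩ := Set.exists_subset_encard_eq (hG b)
    have hfin : T.Finite := Set.finite_of_encard_eq_coe hTc
    have hlt := claimB k hk σ a b hab
      (fun m hm => he m (by rw [hask]; exact Subtype.ext (hm.trans hw.symm))) hfin.toFinset
      (by
        intro w hwT
        obtain ⟨e', ⟨m, hm1, hm2⟩, he'⟩ := hT (hfin.mem_toFinset.1 hwT)
        exact ⟨m, by rw [← hask, hm1, he'], hm2⟩)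
    rw [← hfin.coe_toFinset, Set.encard_coe_eq_coe_finsetCard] at hTc
    have : hfin.toFinset.card = k := by exact_mod_cast hTc
    omega
  · -- green together with white has minimum degree at least `k`
    have hH : green σ (col k σ) ∪ white σ (col k σ) ∈ possible σ (col k σ) ∩ MinDeg k := by
      refine ⟨⟨Set.subset_union_left, subset_rfl⟩, fun v => ?_⟩
      obtain ⟨T, hTk, hT⟩ := claimA k σ v
      have hsub : (T : Set ℕ) ⊆
          {w : ℕ | ∃ e ∈ green σ (col k σ) ∪ white σ (col k σ), e.1 = s(v, w)} := by
        intro w hwT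
        obtain ⟨hne, hc⟩ := hT w hwT
        refine ⟨⟨s(v, w), fun hd => hne (Sym2.mk_isDiag_iff.1 hd).symm⟩, ?_, rfl⟩
        by_cases hx : ∃ m, (ask k σ m).1 = s(v, w)
        · obtain ⟨m, hm⟩ := hx
          exact Or.inl ⟨m, by rw [hask]; exact Subtype.ext hm, hc m hm⟩
        · refine Or.inr fun m hm => hx ⟨m, ?_⟩
          rw [← hask, hm]
      calc (k : ℕ∞) ≤ (T.card : ℕ∞) := by exact_mod_cast hTk
        _ = (T : Set ℕ).encard := (Set.encard_coe_eq_coe_finsetCard T).symm
        _ ≤ _ := Set.encard_le_encard hsub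
    rw [hwin] at hH
    exact hH

end Pool.Agent.Results.MP_3b52ff_co.MinDegInfElusive
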